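import Mathlib

set_option autoImplicit false

/-! Project GS3 (helper38), piece E1: a Gamma integral on the imaginary axis. -/

namespace Pool.Agent.J4H72.GS

open MeasureTheory Set Filter Topology Complex

lemma int_rpow_exp {s b : ℝ} (hs : -1 < s) (hb : 0 < b) :
    IntegrableOn (fun x : ℝ => x ^ s * Real.exp (-(b * x))) (Ioi 0) := by
  have h := integrableOn_rpow_mul_exp_neg_mul_rpow hs one_pos hb
  refine h.congr_fun (fun x _ => ?_) measurableSet_Ioi
  simp only [Real.rpow_one, neg_mul]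

lemma cpow_exp_meas (a r : ℂ) :
    AEStronglyMeasurable (fun t : ℝ => (t : ℂ) ^ (a - 1) * Complex.exp (-(r * t)))
      (volume.restrict (Ioi 0)) := by
  refine ContinuousOn.aestronglyMeasurable ?_ measurableSet_Ioi
  refine ContinuousOn.mul ?_ (by fun_prop)
  intro t ht
  exact (Complex.continuousAt_ofReal_cpow_const t (a - 1) (Or.inr (ne_of_gt ht))).continuousWithinAt

lemma rot_deriv {a r : ℂ} (ha : 0 < a.re) (hr : 0 < r.re) :
    HasDerivAt (fun r : ℂ => ∫ t : ℝ in Ioi 0, (t : ℂ) ^ (a - 1) * Complex.exp (-(r * t)))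
      (∫ t : ℝ in Ioi 0, (t : ℂ) ^ (a - 1) * (Complex.exp (-(r * t)) * (-(1 * t)))) r := by
  have hpos : 0 < r.re / 2 := by positivity
  refine (hasDerivAt_integral_of_dominated_loc_of_deriv_le (μ := volume.restrict (Ioi (0:ℝ)))
    (F := fun (r : ℂ) (t : ℝ) => (t : ℂ) ^ (a - 1) * Complex.exp (-(r * t)))
    (F' := fun (r : ℂ) (t : ℝ) => (t : ℂ) ^ (a - 1) * (Complex.exp (-(r * t)) * (-(1 * t))))
    (s := Metric.ball r (r.re / 2)) (bound := fun t : ℝ => t ^ a.re * Real.exp (-(r.re / 2 * t)))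
    (Metric.ball_mem_nhds r hpos) ?_ ?_ ?_ ?_ ?_ ?_).2
  · exact Eventually.of_forall fun r => cpow_exp_meas a r
  · refine Integrable.mono' (int_rpow_exp (s := a.re - 1) (b := r.re) (by linarith) hr)
      (cpow_exp_meas a r) ?_
    refine (ae_restrict_iff' measurableSet_Ioi).2 (Eventually.of_forall fun t ht => ?_)
    have ht0 : (0:ℝ) < t := ht
    rw [norm_mul, Complex.norm_cpow_eq_rpow_re_of_pos ht0, Complex.norm_exp]
    simp
  · have h := (cpow_exp_meas a r).mul (f := fun t : ℝ => (t : ℂ) ^ (a - 1) * Complex.exp (-(r * t)))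
      (g := fun t : ℝ => (-(1 * (t : ℂ)))) (by fun_prop)
    refine h.congr (Eventually.of_forall fun t => ?_)
    simp only [Pi.mul_apply]
    ring
  · refine (ae_restrict_iff' measurableSet_Ioi).2 (Eventually.of_forall fun t ht z hz => ?_)
    have ht0 : (0:ℝ) < t := ht
    have hz' : r.re / 2 ≤ z.re := by
      have h1 : ‖z - r‖ < r.re / 2 := by simpa [dist_eq_norm] using hz
      have h2 := (abs_le.1 ((Complex.abs_re_le_norm (z - r)).trans h1.le)).1
      rw [Complex.sub_re] at h2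
      linarith
    rw [norm_mul, Complex.norm_cpow_eq_rpow_re_of_pos ht0, norm_mul, Complex.norm_exp]
    have e1 : ‖(-(1 * (t : ℂ)))‖ = t := by
      rw [one_mul, norm_neg, Complex.norm_real, Real.norm_of_nonneg ht0.le]
    have e2 : (a - 1).re = a.re - 1 := by simp
    have e3 : (-(z * (t : ℂ))).re = -(z.re * t) := by simp
    rw [e1, e2, e3]
    have e4 : t ^ a.re = t ^ (a.re - 1) * t := by
      rw [← Real.rpow_add_one ht0.ne']; congr 1; ring
    rw [e4]
    have h5 : Real.exp (-(z.re * t)) ≤ Real.exp (-(r.re / 2 * t)) :=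
      Real.exp_le_exp.2 (neg_le_neg (mul_le_mul_of_nonneg_right hz' ht0.le))
    have h6 : 0 ≤ t ^ (a.re - 1) * t := by positivity
    calc t ^ (a.re - 1) * (Real.exp (-(z.re * t)) * t) =
        t ^ (a.re - 1) * t * Real.exp (-(z.re * t)) := by ring
      _ ≤ _ := mul_le_mul_of_nonneg_left h5 h6
  · exact int_rpow_exp (by linarith) hpos
  · refine Eventually.of_forall fun t z _ => ?_
    exact ((((hasDerivAt_id z).mul_const (t : ℂ)).neg).cexp).const_mul _

/-- Laplace transform of a power (proof by helper242). -/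
lemma rot_formula {a r : ℂ} (ha : 0 < a.re) (hr : 0 < r.re) :
    ∫ t : ℝ in Ioi 0, (t : ℂ) ^ (a - 1) * Complex.exp (-(r * t)) = (1 / r) ^ a * Complex.Gamma a := by
  have hU : IsOpen {z : ℂ | 0 < z.re} := isOpen_lt continuous_const Complex.continuous_re
  have hpre : IsPreconnected {z : ℂ | 0 < z.re} := (convex_halfSpace_re_gt 0).isPreconnected
  have h1 : AnalyticOnNhd ℂ (fun r : ℂ => ∫ t : ℝ in Ioi 0, (t : ℂ) ^ (a - 1) * Complex.exp (-(r * t)))
      {z : ℂ | 0 < z.re} := by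
    refine DifferentiableOn.analyticOnNhd (fun z hz => ?_) hU
    exact (rot_deriv ha hz).differentiableAt.differentiableWithinAt
  have h2 : AnalyticOnNhd ℂ (fun r : ℂ => (1 / r) ^ a * Complex.Gamma a) {z : ℂ | 0 < z.re} := by
    refine DifferentiableOn.analyticOnNhd (fun z hz => ?_) hU
    have hz0 : z ≠ 0 := by
      rintro rfl
      simp at hz
    have hz1 : 0 < (1 / z).re := by
      rw [one_div, Complex.inv_re]
      exact div_pos hz (Complex.normSq_pos.2 hz0)
    have h3 : DifferentiableAt ℂ (fun r : ℂ => 1 / r) z := by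
      simp only [one_div]
      exact differentiableAt_inv hz0
    exact ((h3.cpow_const (Or.inl hz1)).mul_const _).differentiableWithinAt
  refine h1.eqOn_of_preconnected_of_frequently_eq h2 hpre (z₀ := 1) (by simp) ?_ hr
  have ht : Tendsto (fun x : ℝ => (x : ℂ)) (𝓝[≠] 1) (𝓝[≠] (1 : ℂ)) := by
    refine tendsto_nhdsWithin_iff.2 ⟨?_, ?_⟩
    · exact (Complex.continuous_ofReal.tendsto' (1:ℝ) (1:ℂ) (by simp)).mono_left nhdsWithin_le_nhds
    · filter_upwards [self_mem_nhdsWithin] with x hx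
      simp only [mem_compl_iff, mem_singleton_iff] at hx ⊢
      exact_mod_cast hx
  refine ht.frequently (Eventually.frequently ?_)
  have h0 : ∀ᶠ x : ℝ in 𝓝[≠] 1, 0 < x := nhdsWithin_le_nhds (lt_mem_nhds one_pos)
  filter_upwards [h0] with x hx
  exact Complex.integral_cpow_mul_exp_neg_mul_Ioi ha hx


theorem e_le2 (x : ℂ) (hx : x.re ≤ 0) : ‖Complex.exp x - 1‖ ≤ 2 := by
  calc ‖Complex.exp x - 1‖ ≤ ‖Complex.exp x‖ + ‖(1 : ℂ)‖ := norm_sub_le _ _
    _ ≤ 1 + 1 := by
      rw [Complex.norm_exp, norm_one]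
      have := Real.exp_le_one_iff.2 hx
      linarith
    _ = 2 := by norm_num

theorem e_le (x : ℂ) (hx : x.re ≤ 0) : ‖Complex.exp x - 1‖ ≤ 2 * ‖x‖ := by
  rcases le_or_gt ‖x‖ 1 with h | h
  · exact Complex.norm_exp_sub_one_le h
  · have h1 := e_le2 x hx
    linarith

/-- the integrand -/
noncomputable def F (s r : ℂ) (y : ℝ) : ℂ := (Complex.exp (-(r * y)) - 1) * (y : ℂ) ^ (-s - 1)

theorem ncp (s : ℂ) {y : ℝ} (hy : 0 < y) : ‖(y : ℂ) ^ (-s - 1)‖ = y ^ (-s.re - 1) := by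
  rw [Complex.norm_cpow_eq_rpow_re_of_pos hy]; simp

theorem re_neg (r : ℂ) (hr : 0 ≤ r.re) {y : ℝ} (hy : 0 ≤ y) : (-(r * y)).re ≤ 0 := by
  simp only [neg_re, mul_re, ofReal_re, ofReal_im, mul_zero, sub_zero]
  have := mul_nonneg hr hy
  linarith

theorem F_le1 (s r : ℂ) (hr : 0 ≤ r.re) {y : ℝ} (hy : 0 < y) : ‖F s r y‖ ≤ 2 * ‖r‖ * y ^ (-s.re) := by
  unfold F
  rw [norm_mul, ncp s hy]
  have h1 := e_le (-(r * y)) (re_neg r hr hy.le)
  rw [norm_neg, norm_mul, Complex.norm_real, Real.norm_of_nonneg hy.le] at h1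
  have h2 : y ^ (-s.re - 1) * y = y ^ (-s.re) := by
    rw [← Real.rpow_add_one hy.ne']; congr 1; ring
  calc ‖Complex.exp (-(r * y)) - 1‖ * y ^ (-s.re - 1) ≤ (2 * (‖r‖ * y)) * y ^ (-s.re - 1) :=
        mul_le_mul_of_nonneg_right h1 (Real.rpow_nonneg hy.le _)
    _ = 2 * ‖r‖ * (y ^ (-s.re - 1) * y) := by ring
    _ = _ := by rw [h2]

theorem F_le2 (s r : ℂ) (hr : 0 ≤ r.re) {y : ℝ} (hy : 0 < y) : ‖F s r y‖ ≤ 2 * y ^ (-s.re - 1) := by
  unfold F
  rw [norm_mul, ncp s hy]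
  exact mul_le_mul_of_nonneg_right (e_le2 _ (re_neg r hr hy.le)) (Real.rpow_nonneg hy.le _)

theorem F_cont (s r : ℂ) : ContinuousOn (F s r) (Ioi 0) := by
  intro y hy
  apply ContinuousAt.continuousWithinAt
  unfold F
  apply ContinuousAt.mul
  · fun_prop
  · exact Complex.continuousAt_ofReal_cpow_const y _ (Or.inr (ne_of_gt hy))

theorem F_meas1 (s r : ℂ) : AEStronglyMeasurable (F s r) (volume.restrict (Ioc 0 1)) :=
  ((F_cont s r).mono (fun _ h => h.1)).aestronglyMeasurable measurableSet_Ioc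

theorem F_meas2 (s r : ℂ) : AEStronglyMeasurable (F s r) (volume.restrict (Ioi 1)) :=
  ((F_cont s r).mono (fun x (h : 1 < x) => (lt_trans one_pos h : 0 < x))).aestronglyMeasurable measurableSet_Ioi

theorem g1_int (σ c : ℝ) (hσ : σ < 1) : IntegrableOn (fun y : ℝ => c * y ^ (-σ)) (Ioc 0 1) := by
  apply Integrable.const_mul
  have := intervalIntegral.intervalIntegrable_rpow' (a := 0) (b := 1) (r := -σ) (by linarith)
  rwa [intervalIntegrable_iff_integrableOn_Ioc_of_le zero_le_one] at this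

theorem g2_int (σ c : ℝ) (hσ : 0 < σ) : IntegrableOn (fun y : ℝ => c * y ^ (-σ - 1)) (Ioi 1) := by
  apply Integrable.const_mul
  exact integrableOn_Ioi_rpow_of_lt (by linarith) one_pos

theorem F_int1 (s r : ℂ) (h1 : s.re < 1) (hr : 0 ≤ r.re) : IntegrableOn (F s r) (Ioc 0 1) := by
  refine Integrable.mono' (g1_int s.re (2 * ‖r‖) h1) (F_meas1 s r) ?_
  filter_upwards [ae_restrict_mem measurableSet_Ioc] with y hy
  exact F_le1 s r hr hy.1

theorem F_int2 (s r : ℂ) (h0 : 0 < s.re) (hr : 0 ≤ r.re) : IntegrableOn (F s r) (Ioi 1) := by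
  refine Integrable.mono' (g2_int s.re 2 h0) (F_meas2 s r) ?_
  filter_upwards [ae_restrict_mem measurableSet_Ioi] with y hy
  exact F_le2 s r hr (lt_trans one_pos hy)

theorem F_int (s r : ℂ) (h0 : 0 < s.re) (h1 : s.re < 1) (hr : 0 ≤ r.re) : IntegrableOn (F s r) (Ioi 0) := by
  have := (F_int1 s r h1 hr).union (F_int2 s r h0 hr)
  rwa [Ioc_union_Ioi_eq_Ioi zero_le_one] at this

theorem F_split (s r : ℂ) (h0 : 0 < s.re) (h1 : s.re < 1) (hr : 0 ≤ r.re) :
    ∫ y in Ioi (0 : ℝ), F s r y = (∫ y in Ioc (0 : ℝ) 1, F s r y) + ∫ y in Ioi (1 : ℝ), F s r y := by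
  rw [← setIntegral_union (Ioc_disjoint_Ioi le_rfl) measurableSet_Ioi (F_int1 s r h1 hr) (F_int2 s r h0 hr),
    Ioc_union_Ioi_eq_Ioi zero_le_one]

/-- the primitive -/
noncomputable def W (s r : ℂ) (y : ℝ) : ℂ := (Complex.exp (-(r * y)) - 1) * (y : ℂ) ^ (-s)

/-- its derivative -/
noncomputable def W' (s r : ℂ) (y : ℝ) : ℂ := -r * (Complex.exp (-(r * y)) * (y : ℂ) ^ (-s)) - s * F s r y

theorem W_zero (s r : ℂ) : W s r 0 = 0 := by simp [W]

theorem W_deriv (s r : ℂ) {y : ℝ} (hs : s ≠ 0) (hy : 0 < y) : HasDerivAt (W s r) (W' s r y) y := by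
  have h1 : HasDerivAt (fun y : ℝ => Complex.exp (-(r * y)) - 1) (Complex.exp (-(r * y)) * (-(r * 1))) y := by
    have ha : HasDerivAt (fun y : ℝ => -(r * (y : ℂ))) (-(r * 1)) y :=
      ((hasDerivAt_id y).ofReal_comp.const_mul r).neg
    exact (ha.cexp).sub_const 1
  have h2 : HasDerivAt (fun y : ℝ => (y : ℂ) ^ (-s)) (-s * (y : ℂ) ^ (-s - 1)) y :=
    hasDerivAt_ofReal_cpow_const (x := y) (r := -s) (ne_of_gt hy) (neg_ne_zero.2 hs)
  have h3 := h1.mul h2
  have e : W' s r y = Complex.exp (-(r * y)) * (-(r * 1)) * (y : ℂ) ^ (-s) +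
      (Complex.exp (-(r * y)) - 1) * (-s * (y : ℂ) ^ (-s - 1)) := by
    simp only [W', F]
    ring
  rw [e]
  exact h3

theorem W_cont0 (s r : ℂ) (h1 : s.re < 1) (hr : 0 ≤ r.re) : ContinuousWithinAt (W s r) (Ici 0) 0 := by
  unfold ContinuousWithinAt
  rw [W_zero, tendsto_zero_iff_norm_tendsto_zero]
  have hb : ∀ y ∈ Ici (0 : ℝ), ‖W s r y‖ ≤ 2 * ‖r‖ * y ^ (1 - s.re) := by
    intro y hy
    rcases (show (0 : ℝ) ≤ y from hy).eq_or_lt with h | h
    · rw [← h, W_zero, norm_zero]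
      have : (0 : ℝ) ≤ (0 : ℝ) ^ (1 - s.re) := Real.rpow_nonneg le_rfl _
      positivity
    · unfold W
      rw [norm_mul, Complex.norm_cpow_eq_rpow_re_of_pos h, neg_re]
      have h3 := e_le (-(r * y)) (re_neg r hr h.le)
      rw [norm_neg, norm_mul, Complex.norm_real, Real.norm_of_nonneg h.le] at h3
      calc _ ≤ (2 * (‖r‖ * y)) * y ^ (-s.re) := mul_le_mul_of_nonneg_right h3 (Real.rpow_nonneg h.le _)
        _ = 2 * ‖r‖ * (y ^ (-s.re) * y) := by ring
        _ = _ := by rw [← Real.rpow_add_one h.ne']; congr 2; ring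
  have ht : Tendsto (fun y : ℝ => 2 * ‖r‖ * y ^ (1 - s.re)) (𝓝[Ici 0] 0) (𝓝 0) := by
    have : Tendsto (fun y : ℝ => y ^ (1 - s.re)) (𝓝 0) (𝓝 ((0 : ℝ) ^ (1 - s.re))) :=
      (Real.continuousAt_rpow_const 0 _ (Or.inr (by linarith))).tendsto
    rw [Real.zero_rpow (by linarith)] at this
    have h2 := (this.const_mul (2 * ‖r‖)).mono_left (nhdsWithin_le_nhds (s := Ici (0 : ℝ)))
    rwa [mul_zero] at h2
  refine squeeze_zero' (Eventually.of_forall (fun _ => norm_nonneg _)) ?_ ht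
  filter_upwards [self_mem_nhdsWithin] with y hy using hb y hy

theorem W_inf (s r : ℂ) (h0 : 0 < s.re) (hr : 0 ≤ r.re) : Tendsto (W s r) atTop (𝓝 0) := by
  rw [tendsto_zero_iff_norm_tendsto_zero]
  have ht : Tendsto (fun y : ℝ => 2 * y ^ (-s.re)) atTop (𝓝 0) := by
    have := (tendsto_rpow_neg_atTop h0).const_mul 2
    rwa [mul_zero] at this
  refine squeeze_zero' (Eventually.of_forall (fun _ => norm_nonneg _)) ?_ ht
  filter_upwards [eventually_gt_atTop (0 : ℝ)] with y hy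
  unfold W
  rw [norm_mul, Complex.norm_cpow_eq_rpow_re_of_pos hy, neg_re]
  exact mul_le_mul_of_nonneg_right (e_le2 _ (re_neg r hr hy.le)) (Real.rpow_nonneg hy.le _)

theorem E_int (s r : ℂ) (h1 : s.re < 1) (hr : 0 < r.re) :
    IntegrableOn (fun y : ℝ => Complex.exp (-(r * y)) * (y : ℂ) ^ (-s)) (Ioi 0) := by
  have h := integrableOn_rpow_mul_exp_neg_mul_rpow (p := 1) (s := -s.re) (b := r.re) (by linarith) one_pos hr
  refine Integrable.mono' h ?_ ?_
  · apply ContinuousOn.aestronglyMeasurable _ measurableSet_Ioi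
    intro y hy
    apply ContinuousAt.continuousWithinAt
    apply ContinuousAt.mul
    · fun_prop
    · exact Complex.continuousAt_ofReal_cpow_const y _ (Or.inr (ne_of_gt hy))
  · filter_upwards [ae_restrict_mem measurableSet_Ioi] with y hy
    rw [norm_mul, Complex.norm_cpow_eq_rpow_re_of_pos hy, Complex.norm_exp, neg_re, Real.rpow_one, mul_comm]
    apply le_of_eq
    congr 2
    simp

/-- the formula for `Re r > 0` -/
theorem gam1 (s r : ℂ) (h0 : 0 < s.re) (h1 : s.re < 1) (hr : 0 < r.re) :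
    s * ∫ y in Ioi (0 : ℝ), F s r y = -r * ((1 / r) ^ (1 - s) * Complex.Gamma (1 - s)) := by
  have hs : s ≠ 0 := by intro h; rw [h] at h0; simp at h0
  have hW : IntegrableOn (W' s r) (Ioi 0) :=
    ((E_int s r h1 hr).const_mul (-r)).sub ((F_int s r h0 h1 hr.le).const_mul s)
  have h := integral_Ioi_of_hasDerivAt_of_tendsto (W_cont0 s r h1 hr.le) (fun y hy => W_deriv s r hs hy) hW
    (W_inf s r h0 hr.le)
  rw [W_zero, sub_zero] at h
  have h2 : ∫ y in Ioi (0 : ℝ), W' s r y = -r * (∫ y in Ioi (0 : ℝ), Complex.exp (-(r * y)) * (y : ℂ) ^ (-s)) -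
      s * ∫ y in Ioi (0 : ℝ), F s r y := by
    unfold W'
    rw [integral_sub ((E_int s r h1 hr).const_mul (-r)) ((F_int s r h0 h1 hr.le).const_mul s),
      integral_const_mul, integral_const_mul]
  have h3 := rot_formula (a := 1 - s) (r := r) (by simpa using h1) hr
  have h4 : ∫ y in Ioi (0 : ℝ), Complex.exp (-(r * y)) * (y : ℂ) ^ (-s) = (1 / r) ^ (1 - s) * Complex.Gamma (1 - s) := by
    rw [← h3]
    apply setIntegral_congr_fun measurableSet_Ioi
    intro y _
    show _ = (y : ℂ) ^ (1 - s - 1) * Complex.exp (-(r * y))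
    rw [mul_comm]; congr 2; ring
  rw [h2, h4, sub_eq_zero] at h
  exact h.symm

/-- the limit `r → -2 π i` -/
theorem gam2 (s : ℂ) (h0 : 0 < s.re) (h1 : s.re < 1) :
    s * ∫ y in Ioi (0 : ℝ), F s (-(2 * Real.pi * I)) y =
      -(-(2 * Real.pi * I)) * ((1 / (-(2 * Real.pi * I))) ^ (1 - s) * Complex.Gamma (1 - s)) := by
  set r₀ : ℂ := -(2 * Real.pi * I) with hr₀
  have hr₀re : r₀.re = 0 := by simp [hr₀]
  let rn : ℕ → ℂ := fun n => ((1 / ((n : ℝ) + 1) : ℝ) : ℂ) + r₀
  have hpos : ∀ n, 0 < (rn n).re := by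
    intro n
    simp only [rn, add_re, ofReal_re, hr₀re, add_zero]
    positivity
  have hnorm : ∀ n, ‖rn n‖ ≤ 8 := by
    intro n
    have ha : ‖((1 / ((n : ℝ) + 1) : ℝ) : ℂ)‖ ≤ 1 := by
      rw [Complex.norm_real, Real.norm_of_nonneg (by positivity), div_le_one (by positivity)]
      have : (0 : ℝ) ≤ n := Nat.cast_nonneg n
      linarith
    have hb : ‖r₀‖ = 2 * Real.pi := by
      rw [hr₀]; simp [abs_of_pos Real.pi_pos]
    have := Real.pi_lt_d2
    calc ‖rn n‖ ≤ ‖((1 / ((n : ℝ) + 1) : ℝ) : ℂ)‖ + ‖r₀‖ := norm_add_le _ _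
      _ ≤ 1 + 2 * Real.pi := by rw [hb]; linarith
      _ ≤ 8 := by linarith
  have hlim : Tendsto rn atTop (𝓝 r₀) := by
    have : Tendsto (fun n : ℕ => ((1 / ((n : ℝ) + 1) : ℝ) : ℂ)) atTop (𝓝 ((0 : ℝ) : ℂ)) :=
      (Complex.continuous_ofReal.tendsto 0).comp tendsto_one_div_add_atTop_nhds_zero_nat
    have h2 := this.add_const r₀
    simpa [rn] using h2
  have hpt : ∀ y : ℝ, Tendsto (fun n => F s (rn n) y) atTop (𝓝 (F s r₀ y)) := by
    intro y
    unfold F
    apply Tendsto.mul_const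
    apply Tendsto.sub_const
    apply Tendsto.cexp
    exact (hlim.mul_const _).neg
  have hA : Tendsto (fun n => ∫ y in Ioc (0 : ℝ) 1, F s (rn n) y) atTop (𝓝 (∫ y in Ioc (0 : ℝ) 1, F s r₀ y)) := by
    refine tendsto_integral_of_dominated_convergence (fun y => 16 * y ^ (-s.re)) (fun n => F_meas1 s (rn n))
      (g1_int s.re 16 h1) (fun n => ?_) (Eventually.of_forall (fun y => hpt y))
    filter_upwards [ae_restrict_mem measurableSet_Ioc] with y hy
    refine le_trans (F_le1 s (rn n) (hpos n).le hy.1) ?_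
    apply mul_le_mul_of_nonneg_right _ (Real.rpow_nonneg hy.1.le _)
    have := hnorm n
    linarith
  have hB : Tendsto (fun n => ∫ y in Ioi (1 : ℝ), F s (rn n) y) atTop (𝓝 (∫ y in Ioi (1 : ℝ), F s r₀ y)) := by
    refine tendsto_integral_of_dominated_convergence (fun y => 2 * y ^ (-s.re - 1)) (fun n => F_meas2 s (rn n))
      (g2_int s.re 2 h0) (fun n => ?_) (Eventually.of_forall (fun y => hpt y))
    filter_upwards [ae_restrict_mem measurableSet_Ioi] with y hy
    exact F_le2 s (rn n) (hpos n).le (lt_trans one_pos hy)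
  have hL : Tendsto (fun n => s * ∫ y in Ioi (0 : ℝ), F s (rn n) y) atTop (𝓝 (s * ∫ y in Ioi (0 : ℝ), F s r₀ y)) := by
    rw [F_split s r₀ h0 h1 hr₀re.ge]
    have : (fun n => s * ∫ y in Ioi (0 : ℝ), F s (rn n) y) =
        fun n => s * ((∫ y in Ioc (0 : ℝ) 1, F s (rn n) y) + ∫ y in Ioi (1 : ℝ), F s (rn n) y) := by
      funext n; rw [F_split s (rn n) h0 h1 (hpos n).le]
    rw [this]
    exact (hA.add hB).const_mul s
  have hr₀ne : r₀ ≠ 0 := by
    rw [hr₀]; simp [Real.pi_ne_zero]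
  have hR : Tendsto (fun n => -(rn n) * ((1 / rn n) ^ (1 - s) * Complex.Gamma (1 - s))) atTop
      (𝓝 (-r₀ * ((1 / r₀) ^ (1 - s) * Complex.Gamma (1 - s)))) := by
    apply Tendsto.mul hlim.neg
    apply Tendsto.mul_const
    have hc : ContinuousAt (fun z : ℂ => z ^ (1 - s)) (1 / r₀) := by
      apply continuousAt_cpow_const
      right
      have : (1 / r₀).im = 1 / (2 * Real.pi) := by
        rw [hr₀]
        have : (1 : ℂ) / (-(2 * Real.pi * I)) = ((1 / (2 * Real.pi) : ℝ) : ℂ) * I := by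
          push_cast
          have hp : (Real.pi : ℂ) ≠ 0 := by exact_mod_cast Real.pi_ne_zero
          field_simp
          simp
        rw [this]; simp
      rw [this]
      have := Real.pi_pos
      positivity
    exact hc.tendsto.comp (tendsto_const_nhds.div hlim hr₀ne)
  have heq : (fun n => s * ∫ y in Ioi (0 : ℝ), F s (rn n) y) =
      fun n => -(rn n) * ((1 / rn n) ^ (1 - s) * Complex.Gamma (1 - s)) := by
    funext n; exact gam1 s (rn n) h0 h1 (hpos n)
  rw [heq] at hL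
  exact tendsto_nhds_unique hL hR

end Pool.Agent.J4H72.GS
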