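import Pool.Agent.J4H38.GS.Stm3
import Pool.Agent.J4H55.GS.Z2
import Pool.Agent.J4H72.GS.E1a

set_option autoImplicit false

/-! Project GS3 (helper38), piece E1. -/

namespace Pool.Agent.J4H72.GS

open MeasureTheory Set Filter Topology Complex
open Pool.Agent.J4H38.GS

/-- the part near zero -/
theorem J_bd (s r : ℂ) (h0 : 0 < s.re) (h1 : s.re < 1) (hr : 0 ≤ r.re) (hr1 : Complex.exp (-r) = 1) :
    ‖s * ∫ y in Ioc (0 : ℝ) 1, F s r y‖ ≤ ‖r‖ / (1 - s.re) := by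
  have hs : s ≠ 0 := by intro h; rw [h] at h0; simp at h0
  have hE : IntegrableOn (fun y : ℝ => Complex.exp (-(r * y)) * (y : ℂ) ^ (-s)) (Ioc 0 1) := by
    refine Integrable.mono' (g1_int s.re 1 h1) ?_ ?_
    · apply ContinuousOn.aestronglyMeasurable _ measurableSet_Ioc
      intro y hy
      apply ContinuousAt.continuousWithinAt
      apply ContinuousAt.mul
      · fun_prop
      · exact Complex.continuousAt_ofReal_cpow_const y _ (Or.inr (ne_of_gt hy.1))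
    · filter_upwards [ae_restrict_mem measurableSet_Ioc] with y hy
      rw [norm_mul, Complex.norm_cpow_eq_rpow_re_of_pos hy.1, Complex.norm_exp, neg_re s]
      apply mul_le_mul_of_nonneg_right _ (Real.rpow_nonneg hy.1.le _)
      exact Real.exp_le_one_iff.2 (re_neg r hr hy.1.le)
  have hW : IntegrableOn (W' s r) (Ioc 0 1) := (hE.const_mul (-r)).sub ((F_int1 s r h1 hr).const_mul s)
  have hcont : ContinuousOn (W s r) (Icc 0 1) := by
    intro y hy
    rcases hy.1.eq_or_lt with h | h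
    · rw [← h]
      exact (W_cont0 s r h1 hr).mono (fun x hx => hx.1)
    · exact (W_deriv s r hs h).continuousAt.continuousWithinAt
  have h := intervalIntegral.integral_eq_sub_of_hasDerivAt_of_le zero_le_one hcont
    (fun y hy => W_deriv s r hs hy.1) ((intervalIntegrable_iff_integrableOn_Ioc_of_le zero_le_one).2 hW)
  have hW1 : W s r 1 = 0 := by
    unfold W
    have : -(r * ((1 : ℝ) : ℂ)) = -r := by simp
    rw [this, hr1, sub_self, zero_mul]
  rw [W_zero, hW1, sub_zero, intervalIntegral.integral_of_le zero_le_one] at h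
  have h2 : ∫ y in Ioc (0 : ℝ) 1, W' s r y = -r * (∫ y in Ioc (0 : ℝ) 1, Complex.exp (-(r * y)) * (y : ℂ) ^ (-s)) -
      s * ∫ y in Ioc (0 : ℝ) 1, F s r y := by
    unfold W'
    rw [integral_sub (hE.const_mul (-r)) ((F_int1 s r h1 hr).const_mul s), integral_const_mul, integral_const_mul]
  rw [h2, sub_eq_zero] at h
  rw [← h, norm_mul, norm_neg, div_eq_mul_inv]
  apply mul_le_mul_of_nonneg_left _ (norm_nonneg _)
  have h3 : ‖∫ y in Ioc (0 : ℝ) 1, Complex.exp (-(r * y)) * (y : ℂ) ^ (-s)‖ ≤ ∫ y in Ioc (0 : ℝ) 1, 1 * y ^ (-s.re) := by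
    refine norm_integral_le_of_norm_le (g1_int s.re 1 h1) ?_
    filter_upwards [ae_restrict_mem measurableSet_Ioc] with y hy
    rw [norm_mul, Complex.norm_cpow_eq_rpow_re_of_pos hy.1, Complex.norm_exp, neg_re s]
    apply mul_le_mul_of_nonneg_right _ (Real.rpow_nonneg hy.1.le _)
    exact Real.exp_le_one_iff.2 (re_neg r hr hy.1.le)
  refine le_trans h3 ?_
  simp only [one_mul]
  rw [← intervalIntegral.integral_of_le zero_le_one, integral_rpow (Or.inl (by linarith))]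
  rw [Real.one_rpow, Real.zero_rpow (by linarith), sub_zero, one_div]
  apply le_of_eq
  congr 1
  ring

/-- the first coefficient and the Gamma function -/
theorem KK_eq (s : ℂ) (h0 : 0 < s.re) (h1 : s.re < 1) :
    s * KK (-1) s = (2 * Real.pi * I) * ((1 / (-(2 * Real.pi * I))) ^ (1 - s) * Complex.Gamma (1 - s)) + 1 -
      s * ∫ y in Ioc (0 : ℝ) 1, F s (-(2 * Real.pi * I)) y := by
  have hs : s ≠ 0 := by intro h; rw [h] at h0; simp at h0
  have hr0 : (-(2 * (Real.pi : ℂ) * I)).re = 0 := by simp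
  have g := gam2 s h0 h1
  rw [F_split s _ h0 h1 hr0.ge, mul_add, neg_neg] at g
  have hi : IntegrableOn (fun y : ℝ => (y : ℂ) ^ (-s - 1)) (Ioi 1) :=
    integrableOn_Ioi_cpow_of_lt (by simp only [sub_re, neg_re, one_re]; linarith) one_pos
  have hF2 := F_int2 s (-(2 * Real.pi * I)) h0 hr0.ge
  have e1 : KK (-1) s = (∫ y in Ioi (1 : ℝ), F s (-(2 * Real.pi * I)) y) + ∫ y in Ioi (1 : ℝ), (y : ℂ) ^ (-s - 1) := by
    unfold KK
    rw [← integral_add hF2 hi]
    apply setIntegral_congr_fun measurableSet_Ioi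
    intro y _
    simp only [F]
    have : -(2 * Real.pi * ((-1 : ℤ) : ℝ) * y : ℝ) * I = -(-(2 * Real.pi * I) * y) := by push_cast; ring
    show Complex.exp (-(2 * Real.pi * ((-1 : ℤ) : ℝ) * y : ℝ) * I) * (y : ℂ) ^ (-s - 1) = _
    rw [this]
    ring
  have e2 : ∫ y in Ioi (1 : ℝ), (y : ℂ) ^ (-s - 1) = 1 / s := by
    rw [integral_Ioi_cpow_of_lt (by simp only [sub_re, neg_re, one_re]; linarith) one_pos]
    simp only [ofReal_one, one_cpow]
    rw [show -s - 1 + 1 = -s by ring, neg_div_neg_eq]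
  rw [e1, e2, mul_add, mul_one_div_cancel hs]
  linear_combination g

theorem sin_bd (z : ℂ) : ‖Complex.sin z‖ ≤ Real.exp |z.im| := by
  have h := Pool.Agent.J4H55.GS.cos_le (z - (Real.pi : ℂ) / 2)
  rw [Complex.cos_sub_pi_div_two] at h
  have e : (z - (Real.pi : ℂ) / 2).im = z.im := by
    have : ((Real.pi : ℂ) / 2) = ((Real.pi / 2 : ℝ) : ℂ) := by push_cast; rfl
    rw [this, sub_im, ofReal_im, sub_zero]
  rwa [e] at h

theorem ln_re (σ t : ℝ) : (ln σ t).re = σ := by simp [ln]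
theorem ln_im (σ t : ℝ) : (ln σ t).im = t := by simp [ln]

theorem cp_norm (σ t : ℝ) : ‖(1 / (-(2 * Real.pi * I))) ^ (1 - ln σ t)‖ =
    (1 / (2 * Real.pi)) ^ (1 - σ) * Real.exp (Real.pi / 2 * t) := by
  have hp := Real.pi_pos
  have hp' : (Real.pi : ℂ) ≠ 0 := by exact_mod_cast hp.ne'
  have e : (1 : ℂ) / (-(2 * Real.pi * I)) = ((1 / (2 * Real.pi) : ℝ) : ℂ) * I := by
    push_cast
    field_simp
    simp
  have hpos : 0 < 1 / (2 * Real.pi) := by positivity
  rw [e, Complex.norm_cpow_of_ne_zero (mul_ne_zero (by exact_mod_cast hpos.ne') I_ne_zero), norm_mul, norm_I, mul_one,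
    Complex.norm_real, Real.norm_of_nonneg hpos.le, Complex.arg_real_mul _ hpos, Complex.arg_I]
  rw [sub_re, one_re, sub_im, one_im, ln_re, ln_im, zero_sub, div_eq_mul_inv, ← Real.exp_neg]
  congr 2
  ring

theorem gam_low (σ : ℝ) (h0 : 0 < σ) : ∃ c : ℝ, 0 < c ∧ ∀ t : ℝ, 1 ≤ t →
    c * t ^ (1 / 2 - σ) ≤ ‖Complex.Gamma (1 - ln σ t)‖ * Real.exp (Real.pi / 2 * t) := by
  set G₀ : ℝ := 4 * (1 + (σ + 1)) ^ ((σ + 1) - 1 / 2) with hG₀
  have hG₀pos : 0 < G₀ := by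
    have : (0 : ℝ) < 1 + (σ + 1) := by linarith
    rw [hG₀]; positivity
  refine ⟨Real.pi / G₀, div_pos Real.pi_pos hG₀pos, fun t ht => ?_⟩
  have ht0 : 0 < t := by linarith
  set s : ℂ := ln σ t with hs
  have hre : s.re = σ := ln_re σ t
  have him : s.im = t := ln_im σ t
  have hs0 : s ≠ 0 := by intro h; rw [h] at him; simp at him; linarith
  have hG := Pool.Agent.H9R3.BZ.Gamma_upper (σ := σ + 1) (by linarith) ht
  have e1 : ((σ + 1 : ℝ) : ℂ) + t * I = s + 1 := by rw [hs, ln]; push_cast; ring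
  rw [e1, Complex.Gamma_add_one s hs0, norm_mul, ← hG₀] at hG
  have hst : t ≤ ‖s‖ := by
    have := Complex.abs_im_le_norm s
    rw [him, abs_of_pos ht0] at this
    exact this
  have hG2 : t * ‖Complex.Gamma s‖ ≤ G₀ * t ^ (σ + 1 - 1 / 2) * Real.exp (-(Real.pi / 2) * t) :=
    le_trans (mul_le_mul_of_nonneg_right hst (norm_nonneg _)) hG
  have hR := Complex.Gamma_mul_Gamma_one_sub s
  have hne1 : Complex.Gamma s ≠ 0 := Complex.Gamma_ne_zero_of_re_pos (by rw [hre]; exact h0)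
  have hsin : Complex.sin (Real.pi * s) ≠ 0 := by
    intro h
    have h3 := (Complex.sin_eq_zero_iff).1 h
    obtain ⟨k, hk⟩ := h3
    have h4 := congrArg Complex.im hk
    have h5 : (↑Real.pi * s).im = Real.pi * t := by simp [him]
    have h6 : ((k : ℂ) * ↑Real.pi).im = 0 := by simp
    rw [h5, h6] at h4
    have := mul_pos Real.pi_pos ht0
    linarith
  have hsb : ‖Complex.sin (Real.pi * s)‖ ≤ Real.exp (Real.pi * t) := by
    have := sin_bd (Real.pi * s)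
    have h5 : (↑Real.pi * s).im = Real.pi * t := by simp [him]
    rwa [h5, abs_of_pos (mul_pos Real.pi_pos ht0)] at this
  have hlow : Real.pi * Real.exp (-(Real.pi * t)) ≤ ‖Complex.Gamma s‖ * ‖Complex.Gamma (1 - s)‖ := by
    rw [← norm_mul, hR, norm_div, Complex.norm_real, Real.norm_of_nonneg Real.pi_pos.le, Real.exp_neg, ← div_eq_mul_inv]
    exact div_le_div_of_nonneg_left Real.pi_pos.le (norm_pos_iff.2 hsin) hsb
  have hcomb : Real.pi * Real.exp (-(Real.pi * t)) * t ≤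
      G₀ * t ^ (σ + 1 - 1 / 2) * Real.exp (-(Real.pi / 2) * t) * ‖Complex.Gamma (1 - s)‖ := by
    calc Real.pi * Real.exp (-(Real.pi * t)) * t ≤ ‖Complex.Gamma s‖ * ‖Complex.Gamma (1 - s)‖ * t :=
          mul_le_mul_of_nonneg_right hlow ht0.le
      _ = t * ‖Complex.Gamma s‖ * ‖Complex.Gamma (1 - s)‖ := by ring
      _ ≤ _ := mul_le_mul_of_nonneg_right hG2 (norm_nonneg _)
  rw [div_mul_eq_mul_div, div_le_iff₀ hG₀pos]
  have hP : 0 < t ^ (σ + 1 - 1 / 2) * Real.exp (-(Real.pi * t)) := by positivity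
  refine le_of_mul_le_mul_right ?_ hP
  have e2 : t ^ (1 / 2 - σ) * t ^ (σ + 1 - 1 / 2) = t := by
    rw [← Real.rpow_add ht0]
    have : 1 / 2 - σ + (σ + 1 - 1 / 2) = 1 := by ring
    rw [this, Real.rpow_one]
  have e3 : Real.exp (Real.pi / 2 * t) * Real.exp (-(Real.pi * t)) = Real.exp (-(Real.pi / 2) * t) := by
    rw [← Real.exp_add]; congr 1; ring
  calc Real.pi * t ^ (1 / 2 - σ) * (t ^ (σ + 1 - 1 / 2) * Real.exp (-(Real.pi * t)))
      = Real.pi * Real.exp (-(Real.pi * t)) * (t ^ (1 / 2 - σ) * t ^ (σ + 1 - 1 / 2)) := by ring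
    _ = Real.pi * Real.exp (-(Real.pi * t)) * t := by rw [e2]
    _ ≤ _ := hcomb
    _ = ‖Complex.Gamma (1 - s)‖ * G₀ * t ^ (σ + 1 - 1 / 2) * Real.exp (-(Real.pi / 2) * t) := by ring
    _ = ‖Complex.Gamma (1 - s)‖ * G₀ * t ^ (σ + 1 - 1 / 2) * (Real.exp (Real.pi / 2 * t) * Real.exp (-(Real.pi * t))) := by
        rw [e3]
    _ = _ := by ring

theorem main_low (σ : ℝ) (h0 : 0 < σ) (h1 : σ < 1 / 2) : ∃ c B : ℝ, 0 < c ∧ 0 ≤ B ∧ ∀ t : ℝ, 1 ≤ t →
    c * t ^ (1 / 2 - σ) - B ≤ ‖ln σ t * KK (-1) (ln σ t)‖ := by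
  obtain ⟨c, hc, hlow⟩ := gam_low σ h0
  have hp := Real.pi_pos
  refine ⟨2 * Real.pi * ((1 / (2 * Real.pi)) ^ (1 - σ) * c), 1 + 2 * Real.pi / (1 - σ), by positivity,
    by have : 0 < 1 - σ := by linarith
       positivity, fun t ht => ?_⟩
  have hre : (ln σ t).re = σ := ln_re σ t
  rw [KK_eq (ln σ t) (by rw [hre]; exact h0) (by rw [hre]; linarith)]
  have hJ := J_bd (ln σ t) (-(2 * Real.pi * I)) (by rw [hre]; exact h0) (by rw [hre]; linarith) (by simp)
    (by rw [neg_neg]; exact Complex.exp_two_pi_mul_I)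
  have hn : ‖(-(2 * (Real.pi : ℂ) * I))‖ = 2 * Real.pi := by simp [abs_of_pos hp]
  rw [hn, hre] at hJ
  set A := (2 * Real.pi * I) * ((1 / (-(2 * Real.pi * I))) ^ (1 - ln σ t) * Complex.Gamma (1 - ln σ t)) with hA
  have hAn : 2 * Real.pi * ((1 / (2 * Real.pi)) ^ (1 - σ) * c) * t ^ (1 / 2 - σ) ≤ ‖A‖ := by
    have hn2 : ‖(2 * (Real.pi : ℂ) * I)‖ = 2 * Real.pi := by simp [abs_of_pos hp]
    rw [hA, norm_mul (2 * (Real.pi : ℂ) * I), norm_mul (_ ^ _), cp_norm, hn2]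
    have h3 := hlow t ht
    have h4 : 0 ≤ 2 * Real.pi * (1 / (2 * Real.pi)) ^ (1 - σ) := by positivity
    calc _ = 2 * Real.pi * (1 / (2 * Real.pi)) ^ (1 - σ) * (c * t ^ (1 / 2 - σ)) := by ring
      _ ≤ 2 * Real.pi * (1 / (2 * Real.pi)) ^ (1 - σ) * (‖Complex.Gamma (1 - ln σ t)‖ * Real.exp (Real.pi / 2 * t)) :=
          mul_le_mul_of_nonneg_left h3 h4
      _ = _ := by ring
  set J := ln σ t * ∫ y in Ioc (0 : ℝ) 1, F (ln σ t) (-(2 * Real.pi * I)) y with hJd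
  have h5 : ‖A‖ ≤ ‖A + 1 - J‖ + 1 + ‖J‖ := by
    have e : A = (A + 1 - J) - 1 + J := by ring
    calc ‖A‖ = ‖(A + 1 - J) - 1 + J‖ := by rw [← e]
      _ ≤ ‖(A + 1 - J) - 1‖ + ‖J‖ := norm_add_le _ _
      _ ≤ ‖A + 1 - J‖ + ‖(1 : ℂ)‖ + ‖J‖ := by
          have := norm_sub_le (A + 1 - J) 1
          linarith
      _ = _ := by rw [norm_one]
  linarith

theorem t_E1 : S_E1 := by
  intro σ h0 h1
  obtain ⟨c, B, hc, hB, hm⟩ := main_low σ h0 h1
  have hp := Real.pi_pos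
  have hpi1 : (1 : ℝ) ≤ Real.pi := by linarith [Real.pi_gt_three]
  have hlim : ∀ᶠ t : ℝ in atTop, 2 * (B + 1) / c ≤ t ^ (1 / 2 - σ) :=
    (tendsto_rpow_atTop (by linarith : 0 < 1 / 2 - σ)).eventually_ge_atTop _
  obtain ⟨N, hN⟩ := eventually_atTop.1 hlim
  refine ⟨c / (4 * Real.pi), max 1 N, by positivity, le_max_left _ _, fun t ht => ?_⟩
  have ht1 : 1 ≤ t := le_trans (le_max_left _ _) ht
  have ht0 : 0 < t := by linarith
  have h3 := hN t (le_trans (le_max_right _ _) ht)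
  rw [div_le_iff₀ hc] at h3
  have h4 := hm t ht1
  have hT : 0 < t ^ (1 / 2 - σ) := Real.rpow_pos_of_pos ht0 _
  have h5 : c / 2 * t ^ (1 / 2 - σ) + 1 ≤ ‖ln σ t * KK (-1) (ln σ t)‖ := by
    have e : t ^ (1 / 2 - σ) * c = c * t ^ (1 / 2 - σ) := by ring
    rw [e] at h3
    linarith
  constructor
  · have hs2 : ‖ln σ t‖ ≤ 2 * t := by
      unfold ln
      calc ‖(σ : ℂ) + t * I‖ ≤ ‖(σ : ℂ)‖ + ‖(t : ℂ) * I‖ := norm_add_le _ _
        _ = σ + t := by
          rw [norm_mul, norm_I, mul_one, Complex.norm_real, Complex.norm_real, Real.norm_of_nonneg h0.le,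
            Real.norm_of_nonneg ht0.le]
        _ ≤ 2 * t := by linarith
    rw [norm_mul] at h5
    have h6 : c / 2 * t ^ (1 / 2 - σ) ≤ 2 * t * ‖KK (-1) (ln σ t)‖ := by
      have := mul_le_mul_of_nonneg_right hs2 (norm_nonneg (KK (-1) (ln σ t)))
      linarith
    have e : t ^ (1 / 2 - σ) = t * t ^ (-σ - 1 / 2) := by
      rw [mul_comm, ← Real.rpow_add_one ht0.ne']; congr 1; ring
    rw [e] at h6
    have h7 : c / 4 * t ^ (-σ - 1 / 2) ≤ ‖KK (-1) (ln σ t)‖ := by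
      have h8 : t * (c / 2 * t ^ (-σ - 1 / 2)) ≤ t * (2 * ‖KK (-1) (ln σ t)‖) := by linarith
      have h9 := le_of_mul_le_mul_left h8 ht0
      linarith
    refine le_trans ?_ h7
    apply mul_le_mul_of_nonneg_right _ (Real.rpow_nonneg ht0.le _)
    apply div_le_div_of_nonneg_left hc.le (by norm_num)
    linarith
  · have e : cc (-1) (ln σ t) = (1 - ln σ t * KK (-1) (ln σ t)) / (2 * Real.pi * (-1 : ℤ) * I) := by
      unfold cc
      rw [if_neg (by norm_num)]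
    rw [e, norm_div]
    have hd : ‖(2 * (Real.pi : ℂ) * ((-1 : ℤ) : ℂ) * I)‖ = 2 * Real.pi := by
      simp [abs_of_pos hp]
    rw [hd, le_div_iff₀ (by positivity)]
    have h6 : ‖ln σ t * KK (-1) (ln σ t)‖ ≤ ‖1 - ln σ t * KK (-1) (ln σ t)‖ + 1 := by
      have := norm_sub_le (1 : ℂ) (1 - ln σ t * KK (-1) (ln σ t))
      rw [sub_sub_cancel, norm_one] at this
      linarith
    have h7 : c / (4 * Real.pi) * t ^ (1 / 2 - σ) * (2 * Real.pi) = c / 2 * t ^ (1 / 2 - σ) := by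
      field_simp
      ring
    rw [h7]
    linarith

end Pool.Agent.J4H72.GS
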