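import Pool.Agent.J4H38.GS.Stm4
import Pool.Agent.J4H55.GS.Z2
import Pool.Agent.J4H72.GS.E1

set_option autoImplicit false

/-! Project GS4 (helper38), pieces L2, L4. -/

namespace Pool.Agent.J4H72.GS

open MeasureTheory Set Filter Topology Complex
open Pool.Agent.J4H38.GS

theorem gam_base (w : ℂ) (h1 : 1 / 2 ≤ w.re) (h2 : w.re ≤ 3 / 2) (ht : 1 ≤ w.im) :
    Real.pi / 10 * (w.im ^ (w.re - 1 / 2) * Real.exp (-(Real.pi / 2) * w.im)) ≤ ‖Complex.Gamma w‖ := by
  set x := w.re with hx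
  set t := w.im with htd
  have ht0 : 0 < t := by linarith
  have hp := Real.pi_pos
  have hw1 : (1 - w) ≠ 0 := by
    intro h
    have := congrArg Complex.im h
    simp at this
    linarith
  have hG := Pool.Agent.J4H55.GS.Gamma_abs (σ := 2 - x) (by linarith) (t := t) (by rw [abs_of_pos ht0]; exact ht)
  rw [abs_of_pos ht0] at hG
  have e1 : ((2 - x : ℝ) : ℂ) - t * I = (1 - w) + 1 := by
    apply Complex.ext
    · simp [hx]; ring
    · simp [htd]
  rw [e1, Complex.Gamma_add_one _ hw1, norm_mul] at hG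
  have hb : 4 * (1 + (2 - x)) ^ (2 - x - 1 / 2) ≤ 10 := by
    have h3 : (1 + (2 - x)) ^ (2 - x - 1 / 2) ≤ (5 / 2 : ℝ) := by
      calc (1 + (2 - x)) ^ (2 - x - 1 / 2) ≤ (5 / 2 : ℝ) ^ (2 - x - 1 / 2) :=
            Real.rpow_le_rpow (by linarith) (by linarith) (by linarith)
        _ ≤ (5 / 2 : ℝ) ^ (1 : ℝ) := Real.rpow_le_rpow_of_exponent_le (by norm_num) (by linarith)
        _ = 5 / 2 := Real.rpow_one _
    linarith
  have ht1 : t ≤ ‖1 - w‖ := by
    have := Complex.abs_im_le_norm (1 - w)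
    have e : (1 - w).im = -t := by simp [htd]
    rw [e, abs_neg, abs_of_pos ht0] at this
    exact this
  have hG2 : t * ‖Complex.Gamma (1 - w)‖ ≤ 10 * t ^ (2 - x - 1 / 2) * Real.exp (-(Real.pi / 2) * t) := by
    refine (mul_le_mul_of_nonneg_right ht1 (norm_nonneg _)).trans (hG.trans ?_)
    apply mul_le_mul_of_nonneg_right _ (Real.exp_pos _).le
    exact mul_le_mul_of_nonneg_right hb (Real.rpow_nonneg ht0.le _)
  have hne : Complex.Gamma w ≠ 0 := Complex.Gamma_ne_zero_of_re_pos (by linarith)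
  have hsin : Complex.sin (Real.pi * w) ≠ 0 := by
    intro h
    obtain ⟨k, hk⟩ := (Complex.sin_eq_zero_iff).1 h
    have h4 := congrArg Complex.im hk
    have h5 : (↑Real.pi * w).im = Real.pi * t := by simp [htd]
    have h6 : ((k : ℂ) * ↑Real.pi).im = 0 := by simp
    rw [h5, h6] at h4
    have := mul_pos hp ht0
    linarith
  have hsb : ‖Complex.sin (Real.pi * w)‖ ≤ Real.exp (Real.pi * t) := by
    have := sin_bd (Real.pi * w)
    have h5 : (↑Real.pi * w).im = Real.pi * t := by simp [htd]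
    rwa [h5, abs_of_pos (mul_pos hp ht0)] at this
  have hR := Complex.Gamma_mul_Gamma_one_sub w
  have hlow : Real.pi * Real.exp (-(Real.pi * t)) ≤ ‖Complex.Gamma w‖ * ‖Complex.Gamma (1 - w)‖ := by
    rw [← norm_mul, hR, norm_div, Complex.norm_real, Real.norm_of_nonneg hp.le, Real.exp_neg, ← div_eq_mul_inv]
    exact div_le_div_of_nonneg_left hp.le (norm_pos_iff.2 hsin) hsb
  have hcomb : Real.pi * Real.exp (-(Real.pi * t)) * t ≤
      ‖Complex.Gamma w‖ * (10 * t ^ (2 - x - 1 / 2) * Real.exp (-(Real.pi / 2) * t)) := by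
    calc Real.pi * Real.exp (-(Real.pi * t)) * t ≤ ‖Complex.Gamma w‖ * ‖Complex.Gamma (1 - w)‖ * t :=
          mul_le_mul_of_nonneg_right hlow ht0.le
      _ = ‖Complex.Gamma w‖ * (t * ‖Complex.Gamma (1 - w)‖) := by ring
      _ ≤ _ := mul_le_mul_of_nonneg_left hG2 (norm_nonneg _)
  have hP : 0 < 10 * t ^ (2 - x - 1 / 2) * Real.exp (-(Real.pi / 2) * t) := by positivity
  refine le_of_mul_le_mul_right ?_ hP
  refine le_trans (le_of_eq ?_) hcomb
  have e2 : t ^ (x - 1 / 2) * t ^ (2 - x - 1 / 2) = t := by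
    rw [← Real.rpow_add ht0]
    have : x - 1 / 2 + (2 - x - 1 / 2) = 1 := by ring
    rw [this, Real.rpow_one]
  have e3 : Real.exp (-(Real.pi / 2) * t) * Real.exp (-(Real.pi / 2) * t) = Real.exp (-(Real.pi * t)) := by
    rw [← Real.exp_add]; congr 1; ring
  calc Real.pi / 10 * (t ^ (x - 1 / 2) * Real.exp (-(Real.pi / 2) * t)) * (10 * t ^ (2 - x - 1 / 2) * Real.exp (-(Real.pi / 2) * t))
      = Real.pi * (t ^ (x - 1 / 2) * t ^ (2 - x - 1 / 2)) * (Real.exp (-(Real.pi / 2) * t) * Real.exp (-(Real.pi / 2) * t)) := by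
        ring
    _ = _ := by rw [e2, e3]; ring

theorem gam_all (n : ℕ) : ∀ w : ℂ, 1 / 2 ≤ w.re → w.re ≤ 3 / 2 + n → 1 ≤ w.im →
    Real.pi / 10 * (w.im ^ (w.re - 1 / 2) * Real.exp (-(Real.pi / 2) * w.im)) ≤ ‖Complex.Gamma w‖ := by
  induction n with
  | zero => intro w h1 h2 ht; exact gam_base w h1 (by simpa using h2) ht
  | succ n ih =>
    intro w h1 h2 ht
    rcases le_or_gt w.re (3 / 2) with h | h
    · exact gam_base w h1 h ht
    · have ht0 : 0 < w.im := by linarith
      have hw : w - 1 ≠ 0 := by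
        intro h0
        have := congrArg Complex.im h0
        simp at this
        linarith
      have h3 := ih (w - 1) (by simp; linarith) (by simp; push_cast at h2; linarith) (by simpa using ht)
      have e1 : (w - 1).re = w.re - 1 := by simp
      have e2 : (w - 1).im = w.im := by simp
      rw [e1, e2] at h3
      have e3 : Complex.Gamma w = (w - 1) * Complex.Gamma (w - 1) := by
        have := Complex.Gamma_add_one (w - 1) hw
        rwa [sub_add_cancel] at this
      rw [e3, norm_mul]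
      have h4 : w.im ≤ ‖w - 1‖ := by
        have := Complex.abs_im_le_norm (w - 1)
        rw [e2, abs_of_pos ht0] at this
        exact this
      have e4 : w.im ^ (w.re - 1 / 2) = w.im * w.im ^ (w.re - 1 - 1 / 2) := by
        rw [mul_comm, ← Real.rpow_add_one ht0.ne']; congr 1; ring
      rw [e4]
      calc Real.pi / 10 * (w.im * w.im ^ (w.re - 1 - 1 / 2) * Real.exp (-(Real.pi / 2) * w.im))
          = w.im * (Real.pi / 10 * (w.im ^ (w.re - 1 - 1 / 2) * Real.exp (-(Real.pi / 2) * w.im))) := by ring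
        _ ≤ ‖w - 1‖ * ‖Complex.Gamma (w - 1)‖ := mul_le_mul h4 h3 (by positivity) (norm_nonneg _)

theorem AA_norm (w : ℂ) : ‖AA w‖ = (2 * Real.pi) ^ (-w.re) * ‖Complex.Gamma w‖ * Real.exp (Real.pi / 2 * w.im) := by
  unfold AA
  rw [norm_mul, norm_mul]
  have hp : (0 : ℝ) < 2 * Real.pi := by positivity
  have e1 : (2 * Real.pi : ℂ) = ((2 * Real.pi : ℝ) : ℂ) := by push_cast; rfl
  rw [e1, Complex.norm_cpow_eq_rpow_re_of_pos hp, neg_re, Complex.norm_exp]
  congr 2
  simp
  ring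

theorem t_L2 : S_L2 := by
  intro X
  have hp := Real.pi_pos
  refine ⟨(2 * Real.pi) ^ (-X) * (Real.pi / 10), by positivity, fun w h1 h2 ht => ?_⟩
  obtain ⟨n, hn⟩ := exists_nat_ge w.re
  have h3 := gam_all n w h1 (by linarith) ht
  rw [AA_norm]
  have h4 : (2 * Real.pi) ^ (-X) ≤ (2 * Real.pi) ^ (-w.re) :=
    Real.rpow_le_rpow_of_exponent_le (by linarith [Real.pi_gt_three]) (by linarith)
  have ht0 : 0 < w.im := by linarith
  have e1 : Real.exp (-(Real.pi / 2) * w.im) * Real.exp (Real.pi / 2 * w.im) = 1 := by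
    rw [← Real.exp_add]; simp
  calc (2 * Real.pi) ^ (-X) * (Real.pi / 10) * w.im ^ (w.re - 1 / 2)
      = (2 * Real.pi) ^ (-X) * (Real.pi / 10 * w.im ^ (w.re - 1 / 2) * (Real.exp (-(Real.pi / 2) * w.im) *
          Real.exp (Real.pi / 2 * w.im))) := by rw [e1]; ring
    _ = (2 * Real.pi) ^ (-X) * (Real.pi / 10 * (w.im ^ (w.re - 1 / 2) * Real.exp (-(Real.pi / 2) * w.im))) *
          Real.exp (Real.pi / 2 * w.im) := by ring
    _ ≤ (2 * Real.pi) ^ (-w.re) * ‖Complex.Gamma w‖ * Real.exp (Real.pi / 2 * w.im) := by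
        apply mul_le_mul_of_nonneg_right _ (Real.exp_pos _).le
        exact mul_le_mul h4 h3 (by positivity) (by positivity)

end Pool.Agent.J4H72.GS
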