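import Pool.Agent.J4H72.GS.L2

set_option autoImplicit false

/-! Project GS4 (helper38), piece L4. -/

namespace Pool.Agent.J4H72.GS

open MeasureTheory Set Filter Topology Complex
open Pool.Agent.J4H38.GS

noncomputable section

/-- the tail -/
def Zt : ℝ := ∑' n : ℕ, (((n : ℝ) + 2) ^ 2)⁻¹

theorem Zt_sum : Summable (fun n : ℕ => (((n : ℝ) + 2) ^ 2)⁻¹) := by
  have h : Summable (fun n : ℕ => (((n : ℝ)) ^ 2)⁻¹) := Real.summable_nat_pow_inv.2 (by norm_num)
  have h2 := (summable_nat_add_iff 2).2 h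
  simpa using h2

theorem Zt_nonneg : 0 ≤ Zt := tsum_nonneg (fun _ => by positivity)

theorem exp_norm1 (a : ℝ) (n : ℕ) : ‖cexp (2 * Real.pi * I * a * n)‖ = 1 := by
  have : (2 * Real.pi * I * a * n : ℂ) = ((2 * Real.pi * a * n : ℝ) : ℂ) * I := by push_cast; ring
  rw [this, Complex.norm_exp_ofReal_mul_I]

theorem zt_tail (a : ℝ) (w : ℂ) (hw : 2 ≤ w.re) :
    ‖HurwitzZeta.expZeta (a : UnitAddCircle) w - cexp (2 * Real.pi * I * a)‖ ≤ (2 : ℝ) ^ (2 - w.re) * Zt := by
  have hw0 : w ≠ 0 := by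
    intro h
    rw [h] at hw
    simp at hw
    linarith
  have h := HurwitzZeta.hasSum_expZeta_of_one_lt_re a (s := w) (by linarith)
  set f : ℕ → ℂ := fun n : ℕ => cexp (2 * Real.pi * I * a * n) / n ^ w with hf
  have hs : Summable f := h.summable
  have h2 := hs.sum_add_tsum_nat_add 2
  rw [h.tsum_eq] at h2
  have e0 : ∑ i ∈ Finset.range 2, f i = cexp (2 * Real.pi * I * a) := by
    rw [Finset.sum_range_succ, Finset.sum_range_one, hf]
    simp [Complex.zero_cpow hw0]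
  rw [e0] at h2
  have e1 : HurwitzZeta.expZeta (a : UnitAddCircle) w - cexp (2 * Real.pi * I * a) = ∑' n : ℕ, f (n + 2) := by
    rw [← h2]; ring
  rw [e1]
  have hb : ∀ n : ℕ, ‖f (n + 2)‖ ≤ (2 : ℝ) ^ (2 - w.re) * (((n : ℝ) + 2) ^ 2)⁻¹ := by
    intro n
    have hn : (0 : ℝ) < (n : ℝ) + 2 := by positivity
    have e2 : ((n + 2 : ℕ) : ℂ) = (((n : ℝ) + 2 : ℝ) : ℂ) := by push_cast; rfl
    have e3 : ‖f (n + 2)‖ = ((n : ℝ) + 2) ^ (-w.re) := by
      rw [hf]; simp only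
      rw [norm_div, exp_norm1, e2, Complex.norm_cpow_eq_rpow_re_of_pos hn, Real.rpow_neg hn.le, one_div]
    rw [e3]
    have e4 : ((n : ℝ) + 2) ^ (-w.re) = ((n : ℝ) + 2) ^ (2 - w.re) * (((n : ℝ) + 2) ^ 2)⁻¹ := by
      have : (((n : ℝ) + 2) ^ 2)⁻¹ = ((n : ℝ) + 2) ^ (-2 : ℝ) := by
        rw [Real.rpow_neg hn.le]; norm_num
      rw [this, ← Real.rpow_add hn]
      congr 1; ring
    rw [e4]
    apply mul_le_mul_of_nonneg_right _ (by positivity)
    exact Real.rpow_le_rpow_of_nonpos (by norm_num) (by linarith [(Nat.cast_nonneg n : (0 : ℝ) ≤ n)]) (by linarith)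
  have hs2 : Summable (fun n : ℕ => (2 : ℝ) ^ (2 - w.re) * (((n : ℝ) + 2) ^ 2)⁻¹) := Zt_sum.mul_left _
  have h3 := tsum_of_norm_bounded hs2.hasSum hb
  rw [tsum_mul_left] at h3
  exact h3

theorem t_L4 : S_L2 → S_L4 := by
  intro hL2 a ha0 ha1 ε hε
  have hZ := Zt_nonneg
  have hp := Real.pi_pos
  refine ⟨max 2 (24 * Zt / ε), le_max_left _ _, fun κ hκ => ?_⟩
  have hκ2 : 2 ≤ κ := le_trans (le_max_left _ _) hκ
  have hκ3 : 24 * Zt / ε ≤ κ := le_trans (le_max_right _ _) hκ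
  obtain ⟨c, hc, hAA⟩ := hL2 κ
  refine ⟨max 1 (max (3 * (1 + Zt) / ε) (3 / (c * ε))), le_max_left _ _, fun t ht => ?_⟩
  have ht1 : 1 ≤ t := le_trans (le_max_left _ _) ht
  have ht2 : 3 * (1 + Zt) / ε ≤ t := le_trans (le_trans (le_max_left _ _) (le_max_right _ _)) ht
  have ht3 : 3 / (c * ε) ≤ t := le_trans (le_trans (le_max_right _ _) (le_max_right _ _)) ht
  have ht0 : 0 < t := by linarith
  set w : ℂ := (κ : ℂ) + t * I with hw
  have hre : w.re = κ := by simp [hw]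
  have him : w.im = t := by simp [hw]
  -- powers of two
  have h2k : (2 : ℝ) ^ (2 - κ) * Zt ≤ ε / 3 := by
    have hk0 : 0 < κ := by linarith
    have h1 : κ / 2 ≤ (2 : ℝ) ^ κ := by
      have e : (2 : ℝ) ^ κ = Real.exp (Real.log 2 * κ) := Real.rpow_def_of_pos (by norm_num) κ
      rw [e]
      have h3 := Real.add_one_le_exp (Real.log 2 * κ)
      have h4 := Real.log_two_gt_d9
      nlinarith
    have h5 : (2 : ℝ) ^ (2 - κ) = 4 / (2 : ℝ) ^ κ := by
      rw [Real.rpow_sub (by norm_num)]; norm_num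
    have h6 : (2 : ℝ) ^ (2 - κ) ≤ 8 / κ := by
      rw [h5]
      rw [div_le_div_iff₀ (by positivity) hk0]
      linarith
    calc (2 : ℝ) ^ (2 - κ) * Zt ≤ 8 / κ * Zt := mul_le_mul_of_nonneg_right h6 hZ
      _ ≤ ε / 3 := by
        rw [div_mul_eq_mul_div, div_le_iff₀ hk0]
        rw [div_le_iff₀ hε] at hκ3
        linarith
  have h1 := zt_tail a w (by rw [hre]; exact hκ2)
  have h2 := zt_tail (-a) w (by rw [hre]; exact hκ2)
  rw [hre] at h1 h2
  have hneg : ((-a : ℝ) : UnitAddCircle) = -(a : UnitAddCircle) := rfl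
  rw [hneg] at h2
  have h3 : ‖HurwitzZeta.expZeta (-(a : UnitAddCircle)) w‖ ≤ 1 + Zt := by
    have e1 : ‖cexp (2 * Real.pi * I * ((-a : ℝ) : ℂ))‖ = 1 := by
      have := exp_norm1 (-a) 1
      simpa using this
    have h4 : (2 : ℝ) ^ (2 - κ) ≤ 1 := Real.rpow_le_one_of_one_le_of_nonpos (by norm_num) (by linarith)
    have h5 : (2 : ℝ) ^ (2 - κ) * Zt ≤ Zt := by nlinarith
    calc ‖HurwitzZeta.expZeta (-(a : UnitAddCircle)) w‖
        = ‖(HurwitzZeta.expZeta (-(a : UnitAddCircle)) w - cexp (2 * Real.pi * I * ((-a : ℝ) : ℂ))) +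
            cexp (2 * Real.pi * I * ((-a : ℝ) : ℂ))‖ := by rw [sub_add_cancel]
      _ ≤ _ := norm_add_le _ _
      _ ≤ 1 + Zt := by rw [e1]; linarith
  have h4 : ‖cexp (Real.pi * I * w)‖ ≤ 1 / t := by
    rw [Complex.norm_exp]
    have e : (Real.pi * I * w : ℂ).re = -(Real.pi * t) := by
      simp [hw]
    rw [e, Real.exp_neg, ← one_div]
    apply one_div_le_one_div_of_le ht0
    have := Real.add_one_le_exp (Real.pi * t)
    have h5 : 1 ≤ Real.pi := by linarith [Real.pi_gt_three]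
    nlinarith
  have h5 : ‖(a : ℂ) ^ (w - 1) / AA w‖ ≤ 1 / (c * t) := by
    rw [norm_div]
    have h6 : ‖(a : ℂ) ^ (w - 1)‖ ≤ 1 := by
      rcases ha0.eq_or_lt with h | h
      · rw [← h]
        have hne : w - 1 ≠ 0 := by
          intro h0
          have := congrArg Complex.im h0
          rw [sub_im, him, one_im] at this
          simp at this
          linarith
        rw [Complex.ofReal_zero, Complex.zero_cpow hne, norm_zero]
        norm_num
      · rw [Complex.norm_cpow_eq_rpow_re_of_pos h]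
        apply Real.rpow_le_one h.le ha1.le
        rw [sub_re, hre, one_re]
        linarith
    have h7 : c * t ≤ ‖AA w‖ := by
      have h8 := hAA w (by rw [hre]; linarith) (by rw [hre]) (by rw [him]; exact ht1)
      rw [hre, him] at h8
      refine le_trans ?_ h8
      apply mul_le_mul_of_nonneg_left _ hc.le
      calc t = t ^ (1 : ℝ) := (Real.rpow_one t).symm
        _ ≤ t ^ (κ - 1 / 2) := Real.rpow_le_rpow_of_exponent_le ht1 (by linarith)
    exact div_le_div₀ (by norm_num) h6 (by positivity) h7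
  have h6 : 1 / t * (1 + Zt) ≤ ε / 3 := by
    rw [div_mul_eq_mul_div, div_le_iff₀ ht0]
    rw [div_le_iff₀ hε] at ht2
    linarith
  have h7 : 1 / (c * t) ≤ ε / 3 := by
    rw [div_le_div_iff₀ (by positivity) (by norm_num)]
    rw [div_le_iff₀ (by positivity)] at ht3
    linarith
  have e : EE a w - cexp (2 * Real.pi * I * a) =
      (HurwitzZeta.expZeta (a : UnitAddCircle) w - cexp (2 * Real.pi * I * a)) +
      cexp (Real.pi * I * w) * HurwitzZeta.expZeta (-(a : UnitAddCircle)) w - (a : ℂ) ^ (w - 1) / AA w := by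
    unfold EE; ring
  rw [e]
  have h8 : ‖cexp (Real.pi * I * w) * HurwitzZeta.expZeta (-(a : UnitAddCircle)) w‖ ≤ 1 / t * (1 + Zt) := by
    rw [norm_mul]
    exact mul_le_mul h4 h3 (norm_nonneg _) (by positivity)
  calc _ ≤ ‖(HurwitzZeta.expZeta (a : UnitAddCircle) w - cexp (2 * Real.pi * I * a)) +
        cexp (Real.pi * I * w) * HurwitzZeta.expZeta (-(a : UnitAddCircle)) w‖ + ‖(a : ℂ) ^ (w - 1) / AA w‖ := norm_sub_le _ _
    _ ≤ ‖HurwitzZeta.expZeta (a : UnitAddCircle) w - cexp (2 * Real.pi * I * a)‖ +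
        ‖cexp (Real.pi * I * w) * HurwitzZeta.expZeta (-(a : UnitAddCircle)) w‖ + ‖(a : ℂ) ^ (w - 1) / AA w‖ := by
        have := norm_add_le (HurwitzZeta.expZeta (a : UnitAddCircle) w - cexp (2 * Real.pi * I * a))
          (cexp (Real.pi * I * w) * HurwitzZeta.expZeta (-(a : UnitAddCircle)) w)
        linarith
    _ ≤ ε / 3 + ε / 3 + ε / 3 := by linarith
    _ = ε := by ring

end

end Pool.Agent.J4H72.GS
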